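import Pool.Agent.Y501.SY.StmR

set_option autoImplicit false

/-!
# Task SYR-CAP: compact sets of small Hausdorff dimension have small cut-off functions
-/

open Set Filter Topology MeasureTheory
open scoped Manifold ContDiff

noncomputable section

namespace Pool.Agent.Y501.SY


namespace Cap407

/-- one bump -/
theorem bump (d : ℕ) : ∃ C : ℝ, 0 ≤ C ∧ ∀ (x0 : E d) (r : ℝ), 0 < r → ∃ b : E d → ℝ,
    ContDiff ℝ ∞ b ∧ (∀ x, 0 ≤ b x) ∧ (∀ x, b x ≤ 1) ∧ (∀ x ∈ Metric.ball x0 r, b x = 1) ∧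
    (∀ x, x ∉ Metric.ball x0 (2 * r) → b x = 0) ∧
    ∀ x, ‖fderiv ℝ b x‖ ≤ (Metric.ball x0 (2 * r)).indicator (fun _ => C / r) x := by
  let g : ContDiffBump (0 : E d) := ⟨1, 2, one_pos, one_lt_two⟩
  have hg : ContDiff ℝ ∞ (g : E d → ℝ) := g.contDiff
  have hgc : Continuous (fderiv ℝ (g : E d → ℝ)) := hg.continuous_fderiv (by simp)
  obtain ⟨C, hC⟩ := hgc.bounded_above_of_compact_support (g.hasCompactSupport.fderiv ℝ)
  have hC0 : 0 ≤ C := (norm_nonneg _).trans (hC 0)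
  refine ⟨C, hC0, fun x0 r hr => ?_⟩
  have hz : ∀ x, x ∉ Metric.ball x0 (2 * r) → g (r⁻¹ • (x - x0)) = 0 := by
    intro x hx
    apply g.zero_of_le_dist
    rw [Metric.mem_ball, not_lt] at hx
    rw [dist_zero_right, norm_smul, norm_inv, Real.norm_of_nonneg hr.le, ← dist_eq_norm]
    change 2 ≤ r⁻¹ * dist x x0
    rw [inv_mul_eq_div, le_div_iff₀ hr]
    exact hx
  refine ⟨fun x => g (r⁻¹ • (x - x0)), ?_, fun x => g.nonneg, fun x => g.le_one, ?_, hz, ?_⟩
  · have hlin : ContDiff ℝ ∞ (fun x : E d => r⁻¹ • (x - x0)) := by fun_prop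
    exact hg.comp hlin
  · intro x hx
    apply g.one_of_mem_closedBall
    rw [Metric.mem_ball] at hx
    rw [Metric.mem_closedBall, dist_zero_right, norm_smul, norm_inv, Real.norm_of_nonneg hr.le,
      ← dist_eq_norm]
    change r⁻¹ * dist x x0 ≤ 1
    rw [inv_mul_eq_div, div_le_one hr]
    exact hx.le
  · intro x
    by_cases hx : x ∈ Metric.ball x0 (2 * r)
    · rw [Set.indicator_of_mem hx]
      have h1 : HasFDerivAt (fun x : E d => r⁻¹ • (x - x0)) (r⁻¹ • ContinuousLinearMap.id ℝ (E d)) x :=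
        ((hasFDerivAt_id x).sub_const x0).const_smul r⁻¹
      have h2 : HasFDerivAt (g : E d → ℝ) (fderiv ℝ g (r⁻¹ • (x - x0))) (r⁻¹ • (x - x0)) :=
        (hg.differentiable (by simp) _).hasFDerivAt
      have h3 := (h2.comp x h1).fderiv
      change fderiv ℝ (fun x => g (r⁻¹ • (x - x0))) x = _ at h3
      rw [h3]
      refine (ContinuousLinearMap.opNorm_comp_le _ _).trans ?_
      have h4 : ‖r⁻¹ • ContinuousLinearMap.id ℝ (E d)‖ ≤ r⁻¹ := by
        rw [norm_smul, norm_inv, Real.norm_of_nonneg hr.le]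
        have h5 : ‖ContinuousLinearMap.id ℝ (E d)‖ ≤ 1 := ContinuousLinearMap.norm_id_le
        have h6 : 0 ≤ r⁻¹ := by positivity
        nlinarith
      rw [div_eq_mul_inv]
      exact mul_le_mul (hC _) h4 (norm_nonneg _) hC0
    · rw [Set.indicator_of_notMem hx]
      have h1 : IsLocalMin (fun x => g (r⁻¹ • (x - x0))) x := by
        apply Filter.Eventually.of_forall
        intro y
        change g (r⁻¹ • (x - x0)) ≤ g (r⁻¹ • (y - x0))
        rw [hz x hx]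
        exact g.nonneg
      rw [h1.fderiv_eq_zero, norm_zero]

/-- finitely many bumps -/
theorem comb {d : ℕ} (C : ℝ) (hb : ∀ (x0 : E d) (r : ℝ), 0 < r → ∃ b : E d → ℝ,
    ContDiff ℝ ∞ b ∧ (∀ x, 0 ≤ b x) ∧ (∀ x, b x ≤ 1) ∧ (∀ x ∈ Metric.ball x0 r, b x = 1) ∧
    (∀ x, x ∉ Metric.ball x0 (2 * r) → b x = 0) ∧
    ∀ x, ‖fderiv ℝ b x‖ ≤ (Metric.ball x0 (2 * r)).indicator (fun _ => C / r) x)
    (x : ℕ → E d) (r : ℕ → ℝ) (J : Finset ℕ) (hr : ∀ n ∈ J, 0 < r n) :
    ∃ η : E d → ℝ, ContDiff ℝ ∞ η ∧ (∀ y, 0 ≤ η y) ∧ (∀ y, η y ≤ 1) ∧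
    (∀ y, ∀ n ∈ J, y ∈ Metric.ball (x n) (r n) → η y = 1) ∧
    (∀ y, (∀ n ∈ J, y ∉ Metric.ball (x n) (2 * r n)) → η y = 0) ∧
    ∀ y, ‖fderiv ℝ η y‖ ≤ ∑ n ∈ J, (Metric.ball (x n) (2 * r n)).indicator (fun _ => C / r n) y := by
  classical
  induction J using Finset.induction_on with
  | empty =>
    refine ⟨fun _ => 0, contDiff_const, fun _ => le_rfl, fun _ => zero_le_one, ?_, fun _ _ => rfl,
      ?_⟩
    · intro y n hn
      exact absurd hn (Finset.notMem_empty n)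
    · intro y
      simp
  | insert m J hm ih =>
    obtain ⟨η, h1, h2, h3, h4, h5, h6⟩ := ih (fun n hn => hr n (Finset.mem_insert_of_mem hn))
    obtain ⟨b, b1, b2, b3, b4, b5, b6⟩ := hb (x m) (r m) (hr m (Finset.mem_insert_self m J))
    refine ⟨fun y => 1 - (1 - η y) * (1 - b y), ?_, ?_, ?_, ?_, ?_, ?_⟩
    · exact contDiff_const.sub ((contDiff_const.sub h1).mul (contDiff_const.sub b1))
    · intro y
      have e1 : (1 - η y) * (1 - b y) ≤ 1 * 1 :=
        mul_le_mul (by linarith [h2 y]) (by linarith [b2 y]) (by linarith [b3 y]) zero_le_one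
      linarith
    · intro y
      have e1 : 0 ≤ (1 - η y) * (1 - b y) :=
        mul_nonneg (by linarith [h3 y]) (by linarith [b3 y])
      linarith
    · intro y n hn hy
      rcases Finset.mem_insert.1 hn with rfl | hn
      · simp only
        rw [b4 y hy]; ring
      · simp only
        rw [h4 y n hn hy]; ring
    · intro y hy
      simp only
      rw [h5 y (fun n hn => hy n (Finset.mem_insert_of_mem hn)), b5 y (hy m (Finset.mem_insert_self m J))]
      ring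
    · intro y
      rw [Finset.sum_insert hm]
      have e1 : HasFDerivAt η (fderiv ℝ η y) y := (h1.differentiable (by simp) y).hasFDerivAt
      have e2 : HasFDerivAt b (fderiv ℝ b y) y := (b1.differentiable (by simp) y).hasFDerivAt
      have e3 := ((e1.const_sub 1).mul (e2.const_sub 1)).const_sub 1
      have e4 : fderiv ℝ (fun y => 1 - (1 - η y) * (1 - b y)) y =
          (1 - η y) • fderiv ℝ b y + (1 - b y) • fderiv ℝ η y := by
        refine e3.fderiv.trans ?_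
        ext v
        simp
        ring
      rw [e4]
      refine (norm_add_le _ _).trans ?_
      rw [norm_smul, norm_smul, Real.norm_of_nonneg (by linarith [h3 y]),
        Real.norm_of_nonneg (by linarith [b3 y])]
      have e5 : (1 - η y) * ‖fderiv ℝ b y‖ ≤ 1 * ‖fderiv ℝ b y‖ :=
        mul_le_mul_of_nonneg_right (by linarith [h2 y]) (norm_nonneg _)
      have e6 : (1 - b y) * ‖fderiv ℝ η y‖ ≤ 1 * ‖fderiv ℝ η y‖ :=
        mul_le_mul_of_nonneg_right (by linarith [b2 y]) (norm_nonneg _)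
      linarith [b6 y, h6 y]

/-- finite covers by small balls -/
theorem cover {d : ℕ} (hd : 1 ≤ d) (k : Set (E d)) (hk : IsCompact k)
    (h0 : μH[(d : ℝ) - 1] k = 0) (r0 δ : ℝ) (hr0 : 0 < r0) (hδ : 0 < δ) :
    ∃ (J : Finset ℕ) (x : ℕ → E d) (r : ℕ → ℝ), (∀ n ∈ J, x n ∈ k) ∧
      (∀ n ∈ J, 0 < r n ∧ r n ≤ 2 * r0) ∧ k ⊆ ⋃ n ∈ J, Metric.ball (x n) (r n) ∧
      ∑ n ∈ J, r n ^ (d - 1) < δ := by
  rw [Measure.hausdorffMeasure_apply] at h0
  have h1 : (⨅ (t : ℕ → Set (E d)) (_ : k ⊆ ⋃ n, t n)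
      (_ : ∀ n, Metric.ediam (t n) ≤ ENNReal.ofReal r0),
      ∑' n, ⨆ _ : (t n).Nonempty, Metric.ediam (t n) ^ ((d : ℝ) - 1)) < ENNReal.ofReal (δ / 2) := by
    refine lt_of_le_of_lt ?_ (ENNReal.ofReal_pos.2 (half_pos hδ))
    rw [← h0]
    exact le_iSup₂ (f := fun (r : ENNReal) (_ : 0 < r) => ⨅ (t : ℕ → Set (E d))
      (_ : k ⊆ ⋃ n, t n) (_ : ∀ n, Metric.ediam (t n) ≤ r),
      ∑' n, ⨆ _ : (t n).Nonempty, Metric.ediam (t n) ^ ((d : ℝ) - 1)) (ENNReal.ofReal r0)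
      (ENNReal.ofReal_pos.2 hr0)
  simp only [iInf_lt_iff] at h1
  obtain ⟨t, hcov, hdiam, hsum⟩ := h1
  have hfin : ∀ n, Metric.ediam (t n) ≠ ⊤ := fun n =>
    ne_top_of_le_ne_top ENNReal.ofReal_ne_top (hdiam n)
  obtain ⟨D, hD⟩ : ∃ D : ℕ → ℝ, D = fun n => (Metric.ediam (t n)).toReal := ⟨_, rfl⟩
  have hD0 : ∀ n, 0 ≤ D n := by intro n; rw [hD]; exact ENNReal.toReal_nonneg
  have hDr : ∀ n, D n ≤ r0 := by
    intro n
    rw [hD]
    exact ENNReal.toReal_le_of_le_ofReal hr0.le (hdiam n)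
  have hexp : ((d : ℝ) - 1) = ((d - 1 : ℕ) : ℝ) := by
    rw [Nat.cast_sub hd]; simp
  have hchoose : ∀ n : ℕ, ∃ (x : E d) (r : ℝ), (t n ∩ k).Nonempty →
      x ∈ t n ∧ x ∈ k ∧ D n < r ∧ r ≤ 2 * r0 ∧
        r ^ (d - 1) < D n ^ (d - 1) + δ / 2 / 2 / 2 ^ n := by
    intro n
    by_cases hn : (t n ∩ k).Nonempty
    · obtain ⟨x, hxt, hxk⟩ := hn
      have e1 : ∀ᶠ r in 𝓝[>] (D n), r ^ (d - 1) < D n ^ (d - 1) + δ / 2 / 2 / 2 ^ n := by
        apply Filter.Eventually.filter_mono nhdsWithin_le_nhds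
        exact (continuous_pow (d - 1)).continuousAt.eventually_lt_const
          (lt_add_of_pos_right _ (by positivity))
      have e2 : ∀ᶠ r in 𝓝[>] (D n), r ∈ Ioo (D n) (2 * r0) :=
        Ioo_mem_nhdsGT (by linarith [hDr n])
      obtain ⟨r, hr1, hr2⟩ := (e1.and e2).exists
      exact ⟨x, r, fun _ => ⟨hxt, hxk, hr2.1, hr2.2.le, hr1⟩⟩
    · exact ⟨0, 0, fun h => absurd h hn⟩
  choose x r hxr using hchoose
  obtain ⟨b', hb'sub, hb'fin, hb'cov⟩ := hk.elim_finite_subcover_image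
    (b := {n : ℕ | (t n ∩ k).Nonempty}) (c := fun n => Metric.ball (x n) (r n))
    (fun n _ => Metric.isOpen_ball) (by
      intro y hy
      obtain ⟨n, hn⟩ := Set.mem_iUnion.1 (hcov hy)
      have hI : (t n ∩ k).Nonempty := ⟨y, hn, hy⟩
      obtain ⟨hx1, hx2, hx3, hx4, hx5⟩ := hxr n hI
      refine Set.mem_iUnion₂.2 ⟨n, hI, ?_⟩
      rw [Metric.mem_ball]
      refine lt_of_le_of_lt ?_ hx3
      rw [hD]
      have h3 : edist y (x n) ≤ Metric.ediam (t n) := Metric.edist_le_ediam_of_mem hn hx1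
      rw [← ENNReal.toReal_ofReal (dist_nonneg (x := y) (y := x n)), ← edist_dist]
      exact ENNReal.toReal_mono (hfin n) h3)
  refine ⟨hb'fin.toFinset, x, r, ?_, ?_, ?_, ?_⟩
  · intro n hn
    exact (hxr n (hb'sub (hb'fin.mem_toFinset.1 hn))).2.1
  · intro n hn
    obtain ⟨hx1, hx2, hx3, hx4, hx5⟩ := hxr n (hb'sub (hb'fin.mem_toFinset.1 hn))
    exact ⟨(hD0 n).trans_lt hx3, hx4⟩
  · intro y hy
    obtain ⟨n, hn, hyn⟩ := Set.mem_iUnion₂.1 (hb'cov hy)
    exact Set.mem_iUnion₂.2 ⟨n, hb'fin.mem_toFinset.2 hn, hyn⟩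
  · generalize hJ : hb'fin.toFinset = J
    have hJI : ∀ n ∈ J, (t n ∩ k).Nonempty := by
      intro n hn
      rw [← hJ] at hn
      exact hb'sub (hb'fin.mem_toFinset.1 hn)
    have e1 : ∑ n ∈ J, D n ^ (d - 1) < δ / 2 := by
      have e2 : ENNReal.ofReal (∑ n ∈ J, D n ^ (d - 1)) < ENNReal.ofReal (δ / 2) := by
        refine lt_of_le_of_lt ?_ hsum
        rw [ENNReal.ofReal_sum_of_nonneg (fun n _ => pow_nonneg (hD0 n) _)]
        refine le_trans (Finset.sum_le_sum fun n hn => ?_) (ENNReal.sum_le_tsum J)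
        have hne : (t n).Nonempty := (hJI n hn).mono Set.inter_subset_left
        rw [iSup_pos hne, hexp, ENNReal.rpow_natCast, ENNReal.ofReal_pow (hD0 n), hD]
        simp only
        rw [ENNReal.ofReal_toReal (hfin n)]
      exact (ENNReal.ofReal_lt_ofReal_iff (half_pos hδ)).1 e2
    have e3 : ∑ n ∈ J, δ / 2 / 2 / 2 ^ n ≤ δ / 2 := by
      exact ((summable_geometric_two' (δ / 2)).sum_le_tsum J (fun n _ => by positivity)).trans
        (le_of_eq (tsum_geometric_two' (δ / 2)))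
    have e4 : ∑ n ∈ J, r n ^ (d - 1) ≤ ∑ n ∈ J, (D n ^ (d - 1) + δ / 2 / 2 / 2 ^ n) :=
      Finset.sum_le_sum fun n hn => (hxr n (hJI n hn)).2.2.2.2.le
    rw [Finset.sum_add_distrib] at e4
    linarith

end Cap407

theorem t_CAP : S_CAP := by
  intro d hd k hk h0 O hO hkO δ hδ
  obtain ⟨C, hC0, hb⟩ := Cap407.bump d
  obtain ⟨ρ, hρ, hρO⟩ := hk.exists_thickening_subset_open hO hkO
  obtain ⟨v, hv⟩ : ∃ v : ℝ, v = (volume (Metric.ball (0 : E d) 1)).toReal := ⟨_, rfl⟩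
  have hv0 : 0 ≤ v := by rw [hv]; exact ENNReal.toReal_nonneg
  obtain ⟨A, hA⟩ : ∃ A : ℝ, A = C * 2 ^ d * v := ⟨_, rfl⟩
  obtain ⟨B, hB⟩ : ∃ B : ℝ, B = 2 ^ d * v := ⟨_, rfl⟩
  have hA0 : 0 ≤ A := by rw [hA]; positivity
  have hB0 : 0 ≤ B := by rw [hB]; positivity
  obtain ⟨J, x, r, hxk, hr, hcov, hsum⟩ := Cap407.cover hd k hk h0 (min (ρ / 4) (1 / 2))
    (δ / (A + B + 1)) (lt_min (by linarith) (by norm_num)) (by positivity)
  obtain ⟨S, hS⟩ : ∃ S : ℝ, S = ∑ n ∈ J, r n ^ (d - 1) := ⟨_, rfl⟩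
  rw [← hS] at hsum
  have hS0 : 0 ≤ S := by rw [hS]; exact Finset.sum_nonneg fun n hn => pow_nonneg (hr n hn).1.le _
  have hASB : A * S < δ ∧ B * S < δ := by
    have h1 : S * (A + B + 1) < δ := by rwa [lt_div_iff₀ (by positivity)] at hsum
    have h2 : 0 ≤ A * S := mul_nonneg hA0 hS0
    have h3 : 0 ≤ B * S := mul_nonneg hB0 hS0
    have h4 : S * (A + B + 1) = A * S + B * S + S := by ring
    constructor <;> linarith
  have hr1 : ∀ n ∈ J, r n ≤ 1 := by
    intro n hn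
    have := (hr n hn).2
    have h2 := min_le_right (ρ / 4) (1 / 2 : ℝ)
    linarith
  have hr2 : ∀ n ∈ J, 2 * r n ≤ ρ := by
    intro n hn
    have := (hr n hn).2
    have h2 := min_le_left (ρ / 4) (1 / 2 : ℝ)
    linarith
  have hballO : ∀ n ∈ J, Metric.ball (x n) (2 * r n) ⊆ O := by
    intro n hn y hy
    apply hρO
    rw [Metric.mem_thickening_iff]
    exact ⟨x n, hxk n hn, lt_of_lt_of_le (Metric.mem_ball.1 hy) (hr2 n hn)⟩
  have hvol : ∀ n ∈ J, (volume (Metric.ball (x n) (2 * r n))) = ENNReal.ofReal ((2 * r n) ^ d * v) := by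
    intro n hn
    rw [Measure.addHaar_ball_of_pos volume (x n) (by linarith [(hr n hn).1] : (0 : ℝ) < 2 * r n),
      finrank_euclideanSpace_fin, ENNReal.ofReal_mul (by have := (hr n hn).1; positivity), hv,
      ENNReal.ofReal_toReal measure_ball_lt_top.ne]
  have hpow : ∀ n ∈ J, (2 * r n) ^ d * v = B * r n ^ (d - 1) * r n := by
    intro n hn
    rw [hB, mul_pow]
    obtain ⟨e, rfl⟩ : ∃ e, d = e + 1 := ⟨d - 1, by omega⟩
    rw [Nat.add_sub_cancel, pow_succ (r n) e]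
    ring
  obtain ⟨η, h1, h2, h3, h4, h5, h6⟩ := Cap407.comb C hb x r J (fun n hn => (hr n hn).1)
  refine ⟨η, h1, h2, h3, ?_, ?_, ?_, ?_, ?_⟩
  · have hopen : IsOpen (⋃ n ∈ J, Metric.ball (x n) (r n)) :=
      isOpen_biUnion fun n _ => Metric.isOpen_ball
    filter_upwards [hopen.mem_nhdsSet.2 hcov] with y hy
    obtain ⟨n, hn, hyn⟩ := Set.mem_iUnion₂.1 hy
    exact h4 y n hn hyn
  · intro y hy
    exact h5 y (fun n hn hyn => hy (hballO n hn hyn))
  · refine HasCompactSupport.intro (K := ⋃ n ∈ J, Metric.closedBall (x n) (2 * r n)) ?_ ?_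
    · exact J.isCompact_biUnion (fun n _ => isCompact_closedBall _ _)
    · intro y hy
      refine h5 y (fun n hn hyn => hy ?_)
      exact Set.mem_iUnion₂.2 ⟨n, hn, Metric.ball_subset_closedBall hyn⟩
  · have hsub : Function.support η ⊆ ⋃ n ∈ J, Metric.ball (x n) (2 * r n) := by
      intro y hy
      by_contra hcon
      exact hy (h5 y (fun n hn hyn => hcon (Set.mem_iUnion₂.2 ⟨n, hn, hyn⟩)))
    refine lt_of_le_of_lt (measure_mono hsub) (lt_of_le_of_lt (measure_biUnion_finset_le J _) ?_)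
    rw [Finset.sum_congr rfl hvol, ← ENNReal.ofReal_sum_of_nonneg (fun n hn => by
      have := (hr n hn).1
      positivity)]
    apply (ENNReal.ofReal_lt_ofReal_iff hδ).2
    refine lt_of_le_of_lt ?_ hASB.2
    rw [hS, Finset.mul_sum]
    refine Finset.sum_le_sum fun n hn => ?_
    rw [hpow n hn]
    have e1 : 0 ≤ B * r n ^ (d - 1) := mul_nonneg hB0 (pow_nonneg (hr n hn).1.le _)
    calc B * r n ^ (d - 1) * r n ≤ B * r n ^ (d - 1) * 1 :=
          mul_le_mul_of_nonneg_left (hr1 n hn) e1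
      _ = B * r n ^ (d - 1) := mul_one _
  · have hint : ∀ n ∈ J, Integrable ((Metric.ball (x n) (2 * r n)).indicator
        (fun _ : E d => C / r n)) volume := by
      intro n hn
      rw [integrable_indicator_iff Metric.isOpen_ball.measurableSet]
      exact integrableOn_const measure_ball_lt_top.ne
    refine lt_of_le_of_lt (integral_mono_of_nonneg (Filter.Eventually.of_forall fun y => norm_nonneg _)
      (integrable_finsetSum J hint) (Filter.Eventually.of_forall h6)) ?_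
    rw [integral_finsetSum J hint]
    refine lt_of_le_of_lt (le_of_eq ?_) hASB.1
    rw [hS, Finset.mul_sum]
    refine Finset.sum_congr rfl fun n hn => ?_
    rw [integral_indicator_const _ Metric.isOpen_ball.measurableSet, Measure.real, hvol n hn,
      ENNReal.toReal_ofReal (by have := (hr n hn).1; positivity), hpow n hn, smul_eq_mul, hA, hB]
    have := (hr n hn).1.ne'
    field_simp

end Pool.Agent.Y501.SY
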